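import Pool.Agent.Lib.H85TF.P2

/-!
# H75V, file T3: a 2-cut which separates an uncoverable set can be taken uncrossed

`G` is 2-connected, `N` is not covered by pairwise disjoint cycles of `G`, and some pair `x, y`
separates `N`. THEOREM `T3`: some pair which is crossed by no 2-cut separates `N`. Otherwise every
side `B` of a separating pair `x, y` would contain a path from `x` to `y` (and cycles) through all
of `N ∩ B`: the crossing pair cuts the side into two smaller sides. The two sides together cover `N`.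
-/

set_option autoImplicit false

namespace H75V

open Finset H98M H85TF

variable {V : Type*} [Fintype V] [DecidableEq V]

/-- The pair `x, y` separates two vertices of `W`. -/
def Sep (G : Finset (Sym2 V)) (x y : V) (W : Finset V) : Prop :=
  ∃ C D : Finset V, Disjoint C D ∧ C ∪ D = (univ.erase x).erase y ∧
    (∀ a ∈ C, ∀ b ∈ D, s(a, b) ∉ G) ∧ (W ∩ C).Nonempty ∧ (W ∩ D).Nonempty

/-- No 2-cut is separated by the pair `x, y`. -/
def Unc (G : Finset (Sym2 V)) (x y : V) : Prop :=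
  ∀ u v, u ≠ x → u ≠ y → v ≠ x → v ≠ y → Disc ((univ.erase u).erase v) G → ¬ Sep G x y {u, v}

theorem no_cutv {G : Finset (Sym2 V)} {z : V} (hcut : ¬ Disc (univ.erase z) G) {S : Finset V}
    (hS : S.Nonempty) (hz : z ∉ S) {w : V} (hw : w ∉ S) (hwz : w ≠ z)
    (h : ∀ a ∈ S, ∀ b, b ∉ S → b ≠ z → s(a, b) ∉ G) : False := by
  refine hcut ⟨S, (univ.erase z) \ S, hS, ⟨w, ?_⟩, disjoint_sdiff, ?_, ?_⟩
  · rw [mem_sdiff, mem_erase]
    exact ⟨⟨hwz, mem_univ _⟩, hw⟩
  · exact union_sdiff_of_subset fun a ha => mem_erase.2 ⟨fun e => hz (e ▸ ha), mem_univ _⟩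
  · intro a ha b hb
    rw [mem_sdiff, mem_erase] at hb
    exact h a ha b hb.2 hb.1.1

private theorem conn_side_aux {G : Finset (Sym2 V)} (hc : ¬ Disc univ G)
    (hcut : ∀ z, ¬ Disc (univ.erase z) G) {x y : V} {B : Finset V} (hxy : x ≠ y) (hx : x ∉ B)
    (hy : y ∉ B) (hS : ∀ a ∈ B, ∀ b, b ∉ B → b ≠ x → b ≠ y → s(a, b) ∉ G) {C D : Finset V}
    (hD : D.Nonempty) (hCD : Disjoint C D)
    (hu : C ∪ D = insert x (insert y B)) (h : ∀ a ∈ C, ∀ b ∈ D, s(a, b) ∉ G) (hxC : x ∈ C) :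
    B = ∅ ∧ s(x, y) ∉ G := by
  have hin : ∀ w, w ∈ C ∨ w ∈ D ↔ w = x ∨ w = y ∨ w ∈ B := by
    intro w
    rw [← mem_union, hu, mem_insert, mem_insert]
  have hdj : ∀ w, w ∈ C → w ∉ D := fun w h1 h2 => disjoint_left.1 hCD h1 h2
  by_cases hyC : y ∈ C
  · exfalso
    refine hc ⟨D, univ \ D, hD, ⟨x, ?_⟩, disjoint_sdiff, union_sdiff_of_subset (subset_univ _), ?_⟩
    · rw [mem_sdiff]
      exact ⟨mem_univ _, hdj x hxC⟩
    · intro a ha b hb
      rw [mem_sdiff] at hb
      by_cases hbC : b ∈ C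
      · have := h b hbC a ha
        rwa [Sym2.eq_swap] at this
      · have h1 : ¬ (b = x ∨ b = y ∨ b ∈ B) := fun h2 => by
          rcases (hin b).2 h2 with h3 | h3
          · exact hbC h3
          · exact hb.2 h3
        push Not at h1
        have h2 : a ∈ B := by
          rcases (hin a).1 (Or.inr ha) with h3 | h3 | h3
          · exact absurd (h3 ▸ ha) (hdj x hxC)
          · exact absurd (h3 ▸ ha) (hdj y hyC)
          · exact h3
        exact hS a h2 b h1.2.2 h1.1 h1.2.1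
  · have hyD : y ∈ D := ((hin y).2 (Or.inr (Or.inl rfl))).resolve_left hyC
    have hout : ∀ b, b ∉ C → b ∉ D → b ≠ x ∧ b ≠ y ∧ b ∉ B := by
      intro b h1 h2
      have h3 : ¬ (b = x ∨ b = y ∨ b ∈ B) := fun h4 => by
        rcases (hin b).2 h4 with h5 | h5
        · exact h1 h5
        · exact h2 h5
      push Not at h3
      exact h3
    have hC1 : ∀ a ∈ C, a ≠ x → a ∈ B := by
      intro a ha hax
      rcases (hin a).1 (Or.inl ha) with h3 | h3 | h3
      · exact absurd h3 hax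
      · exact absurd (h3 ▸ ha) hyC
      · exact h3
    have hD1 : ∀ a ∈ D, a ≠ y → a ∈ B := by
      intro a ha hay
      rcases (hin a).1 (Or.inr ha) with h3 | h3 | h3
      · exact absurd (h3 ▸ ha) (hdj x hxC)
      · exact absurd h3 hay
      · exact h3
    have hCe : C.erase x = ∅ := by
      by_contra hne
      refine no_cutv (hcut x) (nonempty_iff_ne_empty.2 hne) (notMem_erase x C) (w := y)
        (fun h1 => hyC (mem_erase.1 h1).2) hxy.symm ?_
      intro a ha b hb hbx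
      rw [mem_erase] at ha
      have hbC : b ∉ C := fun h1 => hb (mem_erase.2 ⟨hbx, h1⟩)
      by_cases hbD : b ∈ D
      · exact h a ha.2 b hbD
      · obtain ⟨h1, h2, h3⟩ := hout b hbC hbD
        exact hS a (hC1 a ha.2 ha.1) b h3 h1 h2
    have hDe : D.erase y = ∅ := by
      by_contra hne
      refine no_cutv (hcut y) (nonempty_iff_ne_empty.2 hne) (notMem_erase y D) (w := x)
        (fun h1 => hdj x hxC (mem_erase.1 h1).2) hxy ?_
      intro a ha b hb hby
      rw [mem_erase] at ha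
      have hbD : b ∉ D := fun h1 => hb (mem_erase.2 ⟨hby, h1⟩)
      by_cases hbC : b ∈ C
      · have := h b hbC a ha.2
        rwa [Sym2.eq_swap] at this
      · obtain ⟨h1, h2, h3⟩ := hout b hbC hbD
        exact hS a (hD1 a ha.2 ha.1) b h3 h1 h2
    refine ⟨?_, h x hxC y hyD⟩
    rw [eq_empty_iff_forall_notMem]
    intro b hb
    have hbx : b ≠ x := fun e => hx (e ▸ hb)
    have hby : b ≠ y := fun e => hy (e ▸ hb)
    rcases (hin b).2 (Or.inr (Or.inr hb)) with h1 | h1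
    · exact notMem_empty b (hCe ▸ mem_erase.2 ⟨hbx, h1⟩)
    · exact notMem_empty b (hDe ▸ mem_erase.2 ⟨hby, h1⟩)

/-- A side together with its two attachments is connected, unless it is empty. -/
theorem conn_side {G : Finset (Sym2 V)} (hc : ¬ Disc univ G)
    (hcut : ∀ z, ¬ Disc (univ.erase z) G) {x y : V} {B : Finset V} (hxy : x ≠ y) (hx : x ∉ B)
    (hy : y ∉ B) (hS : ∀ a ∈ B, ∀ b, b ∉ B → b ≠ x → b ≠ y → s(a, b) ∉ G)
    (hd : Disc (insert x (insert y B)) G) : B = ∅ ∧ s(x, y) ∉ G := by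
  obtain ⟨C, D, hC, hD, hCD, hu, h⟩ := hd
  have hxu : x ∈ C ∪ D := hu ▸ mem_insert_self x _
  rcases mem_union.1 hxu with h1 | h1
  · exact conn_side_aux hc hcut hxy hx hy hS hD hCD hu h h1
  · refine conn_side_aux hc hcut hxy hx hy hS hC hCD.symm (by rw [union_comm]; exact hu) ?_ h1
    intro a ha b hb
    have := h b hb a ha
    rwa [Sym2.eq_swap] at this

/-- The edge set of a path. -/
theorem pathF {E : Finset (Sym2 V)} {d : V} :
    ∀ {x : V} (p : (SimpleGraph.fromEdgeSet (E : Set (Sym2 V))).Walk x d), p.IsPath → x ≠ d →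
      ∃ F ⊆ E, dg F x = 1 ∧ dg F d = 1 ∧ (∀ v, v ≠ x → v ≠ d → dg F v = 0 ∨ dg F v = 2) ∧
        ∀ v, v ∉ p.support → dg F v = 0 := by
  intro x p
  induction p with
  | nil => intro _ h; exact absurd rfl h
  | @cons x y d h q ih =>
    intro hp hxd
    rw [SimpleGraph.fromEdgeSet_adj] at h
    obtain ⟨hxy, hxy'⟩ := h
    have hxy1 : s(x, y) ∈ E := by exact_mod_cast hxy
    rw [SimpleGraph.Walk.cons_isPath_iff] at hp
    by_cases hyd : y = d
    · subst hyd
      have key := dg_insert (F := (∅ : Finset (Sym2 V))) (a := x) (u := y) (notMem_empty _)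
      have hz : ∀ v, dg (∅ : Finset (Sym2 V)) v = 0 := fun v => by simp [dg]
      refine ⟨insert s(x, y) ∅, insert_subset hxy1 (empty_subset _), ?_, ?_, ?_, ?_⟩
      · rw [key x, hz]; simp
      · rw [key y, hz]; simp
      · intro v h1 h2
        left
        rw [key v, hz]; simp [h1, h2]
      · intro v hv
        have h1 : v ≠ x := fun e => hv (by rw [e]; simp)
        have h2 : v ≠ y := fun e => hv (by rw [e]; simp)
        rw [key v, hz]; simp [h1, h2]
    · obtain ⟨F, hF, h1, h2, h3, h4⟩ := ih hp.1 hyd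
      have hx0 : dg F x = 0 := h4 x hp.2
      have hnF : s(x, y) ∉ F := fun h' => by
        have := dg_pos h'
        omega
      have key := dg_insert hnF
      refine ⟨insert s(x, y) F, insert_subset hxy1 hF, ?_, ?_, ?_, ?_⟩
      · rw [key x, hx0]; simp
      · have h5 : d ≠ x := Ne.symm hxd
        have h6 : d ≠ y := Ne.symm hyd
        rw [key d, h2]; simp [h5, h6]
      · intro v hv1 hv2
        by_cases hvy : v = y
        · right
          rw [hvy, key y, h1]; simp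
        · have := h3 v hvy hv2
          rw [key v]
          simpa [hv1, hvy] using this
      · intro v hv
        have h5 : v ≠ x := fun e => hv (by rw [e]; simp)
        have h6 : v ∉ q.support := fun h7 => hv (by simp [h7])
        have h7 : v ≠ y := fun e => h6 (by rw [e]; simp)
        rw [key v, h4 v h6]; simp [h5, h7]

theorem dg_union {F₁ F₂ : Finset (Sym2 V)} (h : Disjoint F₁ F₂) (v : V) :
    dg (F₁ ∪ F₂) v = dg F₁ v + dg F₂ v := by
  unfold dg
  rw [filter_union, card_union_of_disjoint]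
  exact disjoint_of_subset_left (filter_subset _ _) (disjoint_of_subset_right (filter_subset _ _) h)

/-- Inside the side `B` of `x, y`: a path from `x` to `y` and cycles, through all of `N ∩ B`. -/
def Lk (G : Finset (Sym2 V)) (N : Finset V) (x y : V) (B : Finset V) : Prop :=
  ∃ F ⊆ G, dg F x = 1 ∧ dg F y = 1 ∧ (∀ v ∈ B, dg F v = 0 ∨ dg F v = 2) ∧
    (∀ v ∈ B, v ∈ N → dg F v = 2) ∧ ∀ v, v ∉ B → v ≠ x → v ≠ y → dg F v = 0

theorem lk_symm {G : Finset (Sym2 V)} {N : Finset V} {x y : V} {B : Finset V}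
    (h : Lk G N x y B) : Lk G N y x B := by
  obtain ⟨F, h1, h2, h3, h4, h5, h6⟩ := h
  exact ⟨F, h1, h3, h2, h4, h5, fun v a b c => h6 v a c b⟩

/-- Two edge sets with at most one common vertex are disjoint. -/
theorem disj_of {E F₁ F₂ : Finset (Sym2 V)} (hE : ∀ e ∈ E, ¬ e.IsDiag) (h1 : F₁ ⊆ E)
    (h : ∀ a b : V, s(a, b) ∈ E → 0 < dg F₁ a → 0 < dg F₂ a → 0 < dg F₁ b → 0 < dg F₂ b → a = b) :
    Disjoint F₁ F₂ := by
  rw [disjoint_left]
  intro e he1 he2
  induction e using Sym2.ind with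
  | _ a b =>
    have := h a b (h1 he1) (dg_pos he1) (dg_pos he2) (dg_pos' he1) (dg_pos' he2)
    exact hE _ (h1 he1) (by simpa using this)

private theorem sepxy_half {G : Finset (Sym2 V)} (hcut : ∀ z, ¬ Disc (univ.erase z) G)
    {x y u v : V} {P Q C D : Finset V} (hPQ : Disjoint P Q)
    (hpq : ∀ a ∈ P, ∀ b ∈ Q, s(a, b) ∉ G) (hcov : ∀ w, w ≠ u → w ≠ v → w ∈ P ∨ w ∈ Q)
    (huQ : u ∉ Q) (hcd : ∀ a ∈ C, ∀ b ∈ D, s(a, b) ∉ G)
    (hcov2 : ∀ w, w ≠ x → w ≠ y → w ∈ C ∨ w ∈ D) (hvD : v ∈ D) (hxP : x ∈ P) (hyP : y ∈ P)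
    (hxu : x ≠ u) {q : V} (hq : q ∈ Q) (hqC : q ∈ C) : False := by
  have hdj : ∀ w, w ∈ P → w ∉ Q := fun w h1 h2 => disjoint_left.1 hPQ h1 h2
  refine no_cutv (hcut u) (S := Q ∩ C) ⟨q, mem_inter.2 ⟨hq, hqC⟩⟩ (fun h => huQ (mem_inter.1 h).1)
    (w := x) (fun h => hdj x hxP (mem_inter.1 h).1) hxu ?_
  intro a ha b hb hbu
  rw [mem_inter] at ha hb
  by_cases hbQ : b ∈ Q
  · have hbC : b ∉ C := fun h => hb ⟨hbQ, h⟩
    have hbx : b ≠ x := fun e => hdj x hxP (e ▸ hbQ)
    have hby : b ≠ y := fun e => hdj y hyP (e ▸ hbQ)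
    exact hcd a ha.2 b ((hcov2 b hbx hby).resolve_left hbC)
  · by_cases hbv : b = v
    · rw [hbv]
      exact hcd a ha.2 v hvD
    · have := hpq b ((hcov b hbu hbv).resolve_right hbQ) a ha.1
      rwa [Sym2.eq_swap] at this

private theorem sepxy {G : Finset (Sym2 V)} (hcut : ∀ z, ¬ Disc (univ.erase z) G)
    {x y u v : V} {P Q C D : Finset V} (hQ : Q.Nonempty) (hPQ : Disjoint P Q)
    (hpq : ∀ a ∈ P, ∀ b ∈ Q, s(a, b) ∉ G) (hcov : ∀ w, w ≠ u → w ≠ v → w ∈ P ∨ w ∈ Q)
    (huQ : u ∉ Q) (hvQ : v ∉ Q) (hcd : ∀ a ∈ C, ∀ b ∈ D, s(a, b) ∉ G)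
    (hcov2 : ∀ w, w ≠ x → w ≠ y → w ∈ C ∨ w ∈ D) (huC : u ∈ C) (hvD : v ∈ D) (hxP : x ∈ P)
    (hyP : y ∈ P) (hxu : x ≠ u) (hxv : x ≠ v) : False := by
  obtain ⟨q, hq⟩ := hQ
  have hqx : q ≠ x := fun e => disjoint_left.1 hPQ hxP (e ▸ hq)
  have hqy : q ≠ y := fun e => disjoint_left.1 hPQ hyP (e ▸ hq)
  rcases hcov2 q hqx hqy with h | h
  · exact sepxy_half hcut hPQ hpq hcov huQ hcd hcov2 hvD hxP hyP hxu hq h
  · refine sepxy_half (u := v) (v := u) (C := D) (D := C) hcut hPQ hpq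
      (fun w h1 h2 => hcov w h2 h1) hvQ ?_ (fun w h1 h2 => (hcov2 w h1 h2).symm) huC hxP hyP hxv
      hq h
    intro a ha b hb
    have := hcd b hb a ha
    rwa [Sym2.eq_swap] at this

/-- A side which contains neither `u` nor `v` is empty. -/
private theorem side_uv {G : Finset (Sym2 V)} (hcut : ∀ z, ¬ Disc (univ.erase z) G)
    {x y u v : V} {P Q B : Finset V} (hxy : x ≠ y) (hB : B.Nonempty) (hx : x ∉ B) (hy : y ∉ B)
    (hS : ∀ a ∈ B, ∀ b, b ∉ B → b ≠ x → b ≠ y → s(a, b) ∉ G)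
    (hPQ : Disjoint P Q)
    (hpq : ∀ a ∈ P, ∀ b ∈ Q, s(a, b) ∉ G) (hcov : ∀ w, w ≠ u → w ≠ v → w ∈ P ∨ w ∈ Q)
    (hxP : x ∈ P) (hyQ : y ∈ Q) (huB : u ∉ B) (hvB : v ∉ B) : False := by
  have hdj : ∀ w, w ∈ P → w ∉ Q := fun w h1 h2 => disjoint_left.1 hPQ h1 h2
  obtain ⟨w, hw⟩ := hB
  rcases hcov w (fun e => huB (e ▸ hw)) (fun e => hvB (e ▸ hw)) with h | h
  · refine no_cutv (hcut x) (S := B ∩ P) ⟨w, mem_inter.2 ⟨hw, h⟩⟩ (fun h => hx (mem_inter.1 h).1)
      (w := y) (fun h => hy (mem_inter.1 h).1) hxy.symm ?_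
    intro a ha b hb hbx
    rw [mem_inter] at ha hb
    by_cases hbB : b ∈ B
    · have hbP : b ∉ P := fun h => hb ⟨hbB, h⟩
      exact hpq a ha.2 b ((hcov b (fun e => huB (e ▸ hbB)) (fun e => hvB (e ▸ hbB))).resolve_left hbP)
    · by_cases hby : b = y
      · rw [hby]
        exact hpq a ha.2 y hyQ
      · exact hS a ha.1 b hbB hbx hby
  · refine no_cutv (hcut y) (S := B ∩ Q) ⟨w, mem_inter.2 ⟨hw, h⟩⟩ (fun h => hy (mem_inter.1 h).1)
      (w := x) (fun h => hx (mem_inter.1 h).1) hxy ?_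
    intro a ha b hb hby
    rw [mem_inter] at ha hb
    have hsw : ∀ c ∈ P, s(a, c) ∉ G := fun c hc => by
      have := hpq c hc a ha.2
      rwa [Sym2.eq_swap] at this
    by_cases hbB : b ∈ B
    · have hbQ : b ∉ Q := fun h => hb ⟨hbB, h⟩
      exact hsw b ((hcov b (fun e => huB (e ▸ hbB)) (fun e => hvB (e ▸ hbB))).resolve_right hbQ)
    · by_cases hbx : b = x
      · rw [hbx]
        exact hsw x hxP
      · exact hS a ha.1 b hbB hbx hby

/-- What a crossing pair does to a side. -/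
theorem crossing {G : Finset (Sym2 V)} (hcut : ∀ z, ¬ Disc (univ.erase z) G) {x y : V}
    {B : Finset V} (hxy : x ≠ y) (hx : x ∉ B) (hy : y ∉ B) (hB : B.Nonempty)
    (hB' : ∃ w, w ∉ B ∧ w ≠ x ∧ w ≠ y)
    (hS : ∀ a ∈ B, ∀ b, b ∉ B → b ≠ x → b ≠ y → s(a, b) ∉ G) (hn : ¬ Unc G x y) :
    ∃ (u v : V) (P Q : Finset V), u ∈ B ∧ v ∉ B ∧ v ≠ x ∧ v ≠ y ∧ x ∈ P ∧ y ∈ Q ∧ u ∉ P ∧ u ∉ Q ∧
      Disjoint P Q ∧ (∀ w, w ≠ u → w ≠ v → w ∈ P ∨ w ∈ Q) ∧ ∀ a ∈ P, ∀ b ∈ Q, s(a, b) ∉ G := by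
  -- a crossing pair with its two partitions
  have h0 : ∃ (u v : V) (P Q C D : Finset V), u ≠ x ∧ u ≠ y ∧ v ≠ x ∧ v ≠ y ∧ P.Nonempty ∧
      Q.Nonempty ∧ Disjoint P Q ∧ P ∪ Q = (univ.erase u).erase v ∧
      (∀ a ∈ P, ∀ b ∈ Q, s(a, b) ∉ G) ∧ (∀ a ∈ C, ∀ b ∈ D, s(a, b) ∉ G) ∧
      (∀ w, w ≠ x → w ≠ y → w ∈ C ∨ w ∈ D) ∧ u ∈ C ∧ v ∈ D := by
    unfold Unc at hn
    push Not at hn
    obtain ⟨u, v, hux, huy, hvx, hvy, ⟨P, Q, hP, hQ, hPQ, hpu, hpq⟩, C, D, hCD, hcu, hcd, hC, hD⟩ := hn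
    obtain ⟨c, hc⟩ := hC
    obtain ⟨d, hd⟩ := hD
    rw [mem_inter, mem_insert, mem_singleton] at hc hd
    have hcov2 : ∀ w, w ≠ x → w ≠ y → w ∈ C ∨ w ∈ D := by
      intro w h1 h2
      rw [← mem_union, hcu, mem_erase, mem_erase]
      exact ⟨h2, h1, mem_univ _⟩
    have hcdn : c ≠ d := fun e => disjoint_left.1 hCD hc.2 (e ▸ hd.2)
    rcases hc.1 with h1 | h1
    · have h2 : d = v := by
        rcases hd.1 with h2 | h2
        · exact absurd (h1.trans h2.symm) hcdn
        · exact h2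
      exact ⟨u, v, P, Q, C, D, hux, huy, hvx, hvy, hP, hQ, hPQ, hpu, hpq, hcd, hcov2, h1 ▸ hc.2,
        h2 ▸ hd.2⟩
    · have h2 : d = u := by
        rcases hd.1 with h2 | h2
        · exact h2
        · exact absurd (h1.trans h2.symm) hcdn
      refine ⟨v, u, P, Q, C, D, hvx, hvy, hux, huy, hP, hQ, hPQ, ?_, hpq, hcd, hcov2, h1 ▸ hc.2,
        h2 ▸ hd.2⟩
      rw [hpu, erase_right_comm]
  obtain ⟨u, v, P, Q, C, D, hux, huy, hvx, hvy, hP, hQ, hPQ, hpu, hpq, hcd, hcov2, huC, hvD⟩ := h0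
  have hcov : ∀ w, w ≠ u → w ≠ v → w ∈ P ∨ w ∈ Q := by
    intro w h1 h2
    rw [← mem_union, hpu, mem_erase, mem_erase]
    exact ⟨h2, h1, mem_univ _⟩
  have hnot : ∀ w, w ∈ P ∪ Q → w ≠ u ∧ w ≠ v := by
    intro w hw
    rw [hpu, mem_erase, mem_erase] at hw
    exact ⟨hw.2.1, hw.1⟩
  have huP : u ∉ P := fun h => (hnot u (mem_union_left _ h)).1 rfl
  have huQ : u ∉ Q := fun h => (hnot u (mem_union_right _ h)).1 rfl
  have hvP : v ∉ P := fun h => (hnot v (mem_union_left _ h)).2 rfl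
  have hvQ : v ∉ Q := fun h => (hnot v (mem_union_right _ h)).2 rfl
  have hqp : ∀ a ∈ Q, ∀ b ∈ P, s(a, b) ∉ G := by
    intro a ha b hb
    have := hpq b hb a ha
    rwa [Sym2.eq_swap] at this
  -- `x` and `y` are on different sides
  have h1 : ∃ P' Q' : Finset V, x ∈ P' ∧ y ∈ Q' ∧ u ∉ P' ∧ u ∉ Q' ∧ v ∉ P' ∧ v ∉ Q' ∧
      Disjoint P' Q' ∧ (∀ w, w ≠ u → w ≠ v → w ∈ P' ∨ w ∈ Q') ∧
      ∀ a ∈ P', ∀ b ∈ Q', s(a, b) ∉ G := by
    rcases hcov x hux.symm hvx.symm with h | h
    · rcases hcov y huy.symm hvy.symm with h' | h'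
      · exact (sepxy hcut hQ hPQ hpq hcov huQ hvQ hcd hcov2 huC hvD h h' hux.symm hvx.symm).elim
      · exact ⟨P, Q, h, h', huP, huQ, hvP, hvQ, hPQ, hcov, hpq⟩
    · rcases hcov y huy.symm hvy.symm with h' | h'
      · exact ⟨Q, P, h, h', huQ, huP, hvQ, hvP, hPQ.symm, fun w a b => (hcov w a b).symm, hqp⟩
      · exact (sepxy hcut hP hPQ.symm hqp (fun w a b => (hcov w a b).symm) huP hvP hcd hcov2 huC
          hvD h h' hux.symm hvx.symm).elim
  obtain ⟨P', Q', hxP, hyQ, huP', huQ', hvP', hvQ', hPQ', hcov', hpq'⟩ := h1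
  -- exactly one of `u`, `v` is in `B`
  by_cases hu : u ∈ B
  · by_cases hv : v ∈ B
    · exfalso
      obtain ⟨w, hw1, hw2, hw3⟩ := hB'
      have hmem : ∀ a, a ∈ ((univ.erase x).erase y) \ B ↔ a ≠ y ∧ a ≠ x ∧ a ∉ B := by
        intro a
        rw [mem_sdiff, mem_erase, mem_erase]
        simp only [mem_univ, and_true]
        tauto
      refine side_uv (B := ((univ.erase x).erase y) \ B) hcut hxy ⟨w, (hmem w).2 ⟨hw3, hw2, hw1⟩⟩
        (fun h => ((hmem x).1 h).2.1 rfl) (fun h => ((hmem y).1 h).1 rfl) ?_ hPQ' hpq' hcov' hxP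
        hyQ (fun h => ((hmem u).1 h).2.2 hu) (fun h => ((hmem v).1 h).2.2 hv)
      intro a ha b hb hbx hby
      have ha' := (hmem a).1 ha
      have hbB : b ∈ B := by
        by_contra hcon
        exact hb ((hmem b).2 ⟨hby, hbx, hcon⟩)
      have := hS b hbB a ha'.2.2 ha'.2.1 ha'.1
      rwa [Sym2.eq_swap] at this
    · exact ⟨u, v, P', Q', hu, hv, hvx, hvy, hxP, hyQ, huP', huQ', hPQ', hcov', hpq'⟩
  · by_cases hv : v ∈ B
    · exact ⟨v, u, P', Q', hv, hu, hux, huy, hxP, hyQ, hvP', hvQ', hPQ', fun w a b => hcov' w b a,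
        hpq'⟩
    · exact (side_uv hcut hxy hB hx hy hS hPQ' hpq' hcov' hxP hyQ hu hv).elim

/-- CLAIM: if no uncrossed pair separates `N`, every side `B` of a pair `x, y` (with a vertex of `N`
outside) contains a path from `x` to `y` and cycles, through all of `N ∩ B`. -/
theorem claim {G : Finset (Sym2 V)} (hE : ∀ e ∈ G, ¬ e.IsDiag) (hc : ¬ Disc univ G)
    (hcut : ∀ z, ¬ Disc (univ.erase z) G) {N : Finset V}
    (hno : ∀ x y, x ≠ y → Sep G x y N → ¬ Unc G x y) :
    ∀ (k : ℕ) (x y : V) (B : Finset V), B.card ≤ k → x ≠ y → x ∉ B → y ∉ B →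
      (∀ a ∈ B, ∀ b, b ∉ B → b ≠ x → b ≠ y → s(a, b) ∉ G) →
      (∃ w ∈ N, w ∉ B ∧ w ≠ x ∧ w ≠ y) → ¬ Disc (insert x (insert y B)) G → Lk G N x y B := by
  classical
  intro k
  induction k with
  | zero =>
    intro x y B hk hxy hx hy _ _ hd
    have hB : B = ∅ := card_eq_zero.1 (Nat.le_zero.1 hk)
    subst hB
    obtain ⟨p, hp, hpU⟩ := path_of_not_disc hd (mem_insert_self x _)
      (mem_insert_of_mem (mem_insert_self y _))
    obtain ⟨F, h1, h2, h3, h4, h5⟩ := pathF p hp hxy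
    refine ⟨F, h1, h2, h3, fun v hv => absurd hv (notMem_empty v),
      fun v hv => absurd hv (notMem_empty v), fun v _ hvx hvy => h5 v fun h => ?_⟩
    have := hpU v h
    simp [hvx, hvy] at this
  | succ k ih =>
    intro x y B hk hxy hx hy hS hN hd
    by_cases hNB : ∃ w ∈ B, w ∈ N
    · obtain ⟨w₁, hw₁, hw₁N⟩ := hNB
      obtain ⟨w₂, hw₂N, hw₂, hw₂x, hw₂y⟩ := hN
      have hsep : Sep G x y N := by
        refine ⟨B, ((univ.erase x).erase y) \ B, disjoint_sdiff, ?_, ?_, ⟨w₁, ?_⟩, ⟨w₂, ?_⟩⟩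
        · refine union_sdiff_of_subset fun a ha => ?_
          rw [mem_erase, mem_erase]
          exact ⟨fun e => hy (e ▸ ha), fun e => hx (e ▸ ha), mem_univ _⟩
        · intro a ha b hb
          rw [mem_sdiff, mem_erase, mem_erase] at hb
          exact hS a ha b hb.2 hb.1.2.1 hb.1.1
        · exact mem_inter.2 ⟨hw₁N, hw₁⟩
        · rw [mem_inter, mem_sdiff, mem_erase, mem_erase]
          exact ⟨hw₂N, ⟨hw₂y, hw₂x, mem_univ _⟩, hw₂⟩
      obtain ⟨u, v, P, Q, huB, hvB, hvx, hvy, hxP, hyQ, huP, huQ, hPQ, hcov, hpq⟩ :=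
        crossing hcut hxy hx hy ⟨w₁, hw₁⟩ ⟨w₂, hw₂, hw₂x, hw₂y⟩ hS (hno x y hxy hsep)
      have hdj : ∀ w, w ∈ P → w ∉ Q := fun w h1 h2 => disjoint_left.1 hPQ h1 h2
      have hqp : ∀ a ∈ Q, ∀ b ∈ P, s(a, b) ∉ G := by
        intro a ha b hb
        have := hpq b hb a ha
        rwa [Sym2.eq_swap] at this
      have hxu : x ≠ u := fun e => huP (e ▸ hxP)
      have hyu : y ≠ u := fun e => huQ (e ▸ hyQ)
      have hBv : ∀ w ∈ B, w ≠ v := fun w hw e => hvB (e ▸ hw)
      have hcard : ∀ R : Finset V, u ∉ R → (B ∩ R).card ≤ k := by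
        intro R hR
        have h1 : (B ∩ R).card < B.card := by
          refine card_lt_card ⟨inter_subset_left, fun h => ?_⟩
          exact hR (mem_inter.1 (h huB)).2
        omega
      -- the `x`-part
      have hL1 : Lk G N x u (B ∩ P) := by
        refine ih x u (B ∩ P) (hcard P huP) hxu (fun h => hx (mem_inter.1 h).1)
          (fun h => huP (mem_inter.1 h).2) ?_ ⟨w₂, hw₂N, fun h => hw₂ (mem_inter.1 h).1, hw₂x,
            fun e => hw₂ (e ▸ huB)⟩ ?_
        · intro a ha b hb hbx hbu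
          rw [mem_inter] at ha hb
          by_cases hbB : b ∈ B
          · exact hpq a ha.2 b ((hcov b hbu (hBv b hbB)).resolve_left fun h => hb ⟨hbB, h⟩)
          · by_cases hby : b = y
            · rw [hby]
              exact hpq a ha.2 y hyQ
            · exact hS a ha.1 b hbB hbx hby
        · intro hdd
          obtain ⟨h1, h2⟩ := conn_side hc hcut hxu (fun h => hx (mem_inter.1 h).1)
            (fun h => huP (mem_inter.1 h).2) (by
              intro a ha b hb hbx hbu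
              rw [mem_inter] at ha hb
              by_cases hbB : b ∈ B
              · exact hpq a ha.2 b ((hcov b hbu (hBv b hbB)).resolve_left fun h => hb ⟨hbB, h⟩)
              · by_cases hby : b = y
                · rw [hby]
                  exact hpq a ha.2 y hyQ
                · exact hS a ha.1 b hbB hbx hby) hdd
          refine no_cutv (hcut y) (S := B) ⟨u, huB⟩ hy hx hxy ?_
          intro a ha b hb hby
          by_cases hbx : b = x
          · subst hbx
            by_cases hau : a = u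
            · subst hau
              rw [Sym2.eq_swap]
              exact h2
            · have haQ : a ∈ Q := by
                refine (hcov a hau (hBv a ha)).resolve_left fun h => ?_
                exact notMem_empty a (h1 ▸ mem_inter.2 ⟨ha, h⟩)
              exact hqp a haQ b hxP
          · exact hS a ha b hb hbx hby
      -- the `y`-part
      have hL2 : Lk G N y u (B ∩ Q) := by
        refine ih y u (B ∩ Q) (hcard Q huQ) hyu (fun h => hy (mem_inter.1 h).1)
          (fun h => huQ (mem_inter.1 h).2) ?_ ⟨w₂, hw₂N, fun h => hw₂ (mem_inter.1 h).1, hw₂y,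
            fun e => hw₂ (e ▸ huB)⟩ ?_
        · intro a ha b hb hby hbu
          rw [mem_inter] at ha hb
          by_cases hbB : b ∈ B
          · exact hqp a ha.2 b ((hcov b hbu (hBv b hbB)).resolve_right fun h => hb ⟨hbB, h⟩)
          · by_cases hbx : b = x
            · rw [hbx]
              exact hqp a ha.2 x hxP
            · exact hS a ha.1 b hbB hbx hby
        · intro hdd
          obtain ⟨h1, h2⟩ := conn_side hc hcut hyu (fun h => hy (mem_inter.1 h).1)
            (fun h => huQ (mem_inter.1 h).2) (by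
              intro a ha b hb hby hbu
              rw [mem_inter] at ha hb
              by_cases hbB : b ∈ B
              · exact hqp a ha.2 b ((hcov b hbu (hBv b hbB)).resolve_right fun h => hb ⟨hbB, h⟩)
              · by_cases hbx : b = x
                · rw [hbx]
                  exact hqp a ha.2 x hxP
                · exact hS a ha.1 b hbB hbx hby) hdd
          refine no_cutv (hcut x) (S := B) ⟨u, huB⟩ hx hy hxy.symm ?_
          intro a ha b hb hbx
          by_cases hby : b = y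
          · subst hby
            by_cases hau : a = u
            · subst hau
              rw [Sym2.eq_swap]
              exact h2
            · have haP : a ∈ P := by
                refine (hcov a hau (hBv a ha)).resolve_right fun h => ?_
                exact notMem_empty a (h1 ▸ mem_inter.2 ⟨ha, h⟩)
              exact hpq a haP b hyQ
          · exact hS a ha b hb hbx hby
      obtain ⟨F₁, a1, a2, a3, a4, a5, a6⟩ := hL1
      obtain ⟨F₂, b1, b2, b3, b4, b5, b6⟩ := hL2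
      -- supports
      have s1 : ∀ w, 0 < dg F₁ w → w ∈ B ∩ P ∨ w = x ∨ w = u := by
        intro w hw
        by_contra hcon
        push Not at hcon
        have := a6 w hcon.1 hcon.2.1 hcon.2.2
        omega
      have s2 : ∀ w, 0 < dg F₂ w → w ∈ B ∩ Q ∨ w = y ∨ w = u := by
        intro w hw
        by_contra hcon
        push Not at hcon
        have := b6 w hcon.1 hcon.2.1 hcon.2.2
        omega
      have s12 : ∀ w, 0 < dg F₁ w → 0 < dg F₂ w → w = u := by
        intro w h1 h2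
        rcases s1 w h1 with h3 | h3 | h3
        · rcases s2 w h2 with h4 | h4 | h4
          · exact absurd (mem_inter.1 h4).2 (hdj w (mem_inter.1 h3).2)
          · exact absurd (h4 ▸ (mem_inter.1 h3).1) hy
          · exact h4
        · rcases s2 w h2 with h4 | h4 | h4
          · exact absurd (h3 ▸ (mem_inter.1 h4).1) hx
          · exact absurd (h3.symm.trans h4) hxy
          · exact h4
        · exact h3
      have hdis : Disjoint F₁ F₂ := disj_of hE a1 fun a b _ h1 h2 h3 h4 =>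
        (s12 a h1 h2).trans (s12 b h3 h4).symm
      have key := dg_union hdis
      have z1 : ∀ w, w ∈ Q → dg F₁ w = 0 := by
        intro w hw
        refine a6 w (fun h => hdj w (mem_inter.1 h).2 hw) (fun e => hdj x hxP (e ▸ hw))
          (fun e => huQ (e ▸ hw))
      have z2 : ∀ w, w ∈ P → dg F₂ w = 0 := by
        intro w hw
        refine b6 w (fun h => hdj w hw (mem_inter.1 h).2) (fun e => hdj y (e ▸ hw) hyQ)
          (fun e => huP (e ▸ hw))
      refine ⟨F₁ ∪ F₂, union_subset a1 b1, ?_, ?_, ?_, ?_, ?_⟩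
      · rw [key x, a2, z2 x hxP]
      · rw [key y, b2, z1 y hyQ]
      · intro w hw
        by_cases hwu : w = u
        · subst hwu
          right
          rw [key w, a3, b3]
        · rcases hcov w hwu (hBv w hw) with h | h
          · rw [key w, z2 w h]
            simpa using a4 w (mem_inter.2 ⟨hw, h⟩)
          · rw [key w, z1 w h]
            simpa using b4 w (mem_inter.2 ⟨hw, h⟩)
      · intro w hw hwN
        by_cases hwu : w = u
        · subst hwu
          rw [key w, a3, b3]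
        · rcases hcov w hwu (hBv w hw) with h | h
          · rw [key w, z2 w h]
            simpa using a5 w (mem_inter.2 ⟨hw, h⟩) hwN
          · rw [key w, z1 w h]
            simpa using b5 w (mem_inter.2 ⟨hw, h⟩) hwN
      · intro w hw hwx hwy
        have hwu : w ≠ u := fun e => hw (e ▸ huB)
        rw [key w, a6 w (fun h => hw (mem_inter.1 h).1) hwx hwu,
          b6 w (fun h => hw (mem_inter.1 h).1) hwy hwu]
    · push Not at hNB
      obtain ⟨p, hp, hpU⟩ := path_of_not_disc hd (mem_insert_self x _)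
        (mem_insert_of_mem (mem_insert_self y _))
      obtain ⟨F, h1, h2, h3, h4, h5⟩ := pathF p hp hxy
      refine ⟨F, h1, h2, h3, fun v hv => h4 v (fun e => hx (e ▸ hv)) (fun e => hy (e ▸ hv)),
        fun v hv hvN => absurd hvN (hNB v hv), fun v hv hvx hvy => h5 v fun h => ?_⟩
      have := hpU v h
      simp only [mem_insert] at this
      tauto

/-- THEOREM T3. -/
theorem T3 {G : Finset (Sym2 V)} (hE : ∀ e ∈ G, ¬ e.IsDiag) (hc : ¬ Disc univ G)
    (hcut : ∀ z, ¬ Disc (univ.erase z) G) {N : Finset V} (hN : ¬ Cov G N)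
    (h : ∃ x y, x ≠ y ∧ Sep G x y N) : ∃ x y, x ≠ y ∧ Sep G x y N ∧ Unc G x y := by
  classical
  by_contra hcon
  push Not at hcon
  obtain ⟨x, y, hxy, hsep⟩ := h
  obtain ⟨C, D, hCD, hcd, hno, ⟨c, hc1⟩, ⟨d, hd1⟩⟩ := hsep
  rw [mem_inter] at hc1 hd1
  have hmem : ∀ w, w ∈ C ∨ w ∈ D ↔ w ≠ y ∧ w ≠ x := by
    intro w
    rw [← mem_union, hcd, mem_erase, mem_erase]
    simp
  have hxC : x ∉ C := fun h => ((hmem x).1 (Or.inl h)).2 rfl
  have hyC : y ∉ C := fun h => ((hmem y).1 (Or.inl h)).1 rfl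
  have hxD : x ∉ D := fun h => ((hmem x).1 (Or.inr h)).2 rfl
  have hyD : y ∉ D := fun h => ((hmem y).1 (Or.inr h)).1 rfl
  have hdj : ∀ w, w ∈ C → w ∉ D := fun w h1 h2 => disjoint_left.1 hCD h1 h2
  have hcond : ∀ w, w ∈ C → ∀ b, b ∉ C → b ≠ x → b ≠ y → s(w, b) ∉ G := by
    intro a ha b hb hbx hby
    exact hno a ha b (((hmem b).2 ⟨hby, hbx⟩).resolve_left hb)
  have hdond : ∀ w, w ∈ D → ∀ b, b ∉ D → b ≠ x → b ≠ y → s(w, b) ∉ G := by
    intro a ha b hb hbx hby
    have := hno b (((hmem b).2 ⟨hby, hbx⟩).resolve_right hb) a ha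
    rwa [Sym2.eq_swap] at this
  have hcl := claim hE hc hcut (N := N) (fun x y h1 h2 h3 => hcon x y h1 h2 h3)
  have hL1 : Lk G N x y C := by
    refine hcl C.card x y C le_rfl hxy hxC hyC hcond
      ⟨d, hd1.1, fun h => hdj d h hd1.2, fun e => hxD (e ▸ hd1.2), fun e => hyD (e ▸ hd1.2)⟩ ?_
    intro h
    have := (conn_side hc hcut hxy hxC hyC hcond h).1
    exact notMem_empty c (this ▸ hc1.2)
  have hL2 : Lk G N x y D := by
    refine hcl D.card x y D le_rfl hxy hxD hyD hdond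
      ⟨c, hc1.1, hdj c hc1.2, fun e => hxC (e ▸ hc1.2), fun e => hyC (e ▸ hc1.2)⟩ ?_
    intro h
    have := (conn_side hc hcut hxy hxD hyD hdond h).1
    exact notMem_empty d (this ▸ hd1.2)
  obtain ⟨u, v, P, Q, -, -, -, -, hxP, hyQ, -, -, hPQ, -, hpq⟩ :=
    crossing hcut hxy hxC hyC ⟨c, hc1.2⟩
      ⟨d, fun h => hdj d h hd1.2, fun e => hxD (e ▸ hd1.2), fun e => hyD (e ▸ hd1.2)⟩ hcond
      (hcon x y hxy ⟨C, D, hCD, hcd, hno, ⟨c, mem_inter.2 hc1⟩, ⟨d, mem_inter.2 hd1⟩⟩)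
  have hnxy : s(x, y) ∉ G := hpq x hxP y hyQ
  obtain ⟨F₁, a1, a2, a3, a4, a5, a6⟩ := hL1
  obtain ⟨F₂, b1, b2, b3, b4, b5, b6⟩ := hL2
  have s12 : ∀ w, 0 < dg F₁ w → 0 < dg F₂ w → w = x ∨ w = y := by
    intro w h1 h2
    by_contra hw
    push Not at hw
    rcases (hmem w).2 ⟨hw.2, hw.1⟩ with h3 | h3
    · have := b6 w (hdj w h3) hw.1 hw.2
      omega
    · have := a6 w (fun h => hdj w h h3) hw.1 hw.2
      omega
  have hdis : Disjoint F₁ F₂ := by
    refine disj_of hE a1 fun a b hab h1 h2 h3 h4 => ?_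
    rcases s12 a h1 h2 with h5 | h5 <;> rcases s12 b h3 h4 with h6 | h6
    · exact h5.trans h6.symm
    · rw [h5, h6] at hab
      exact absurd hab hnxy
    · rw [h5, h6, Sym2.eq_swap] at hab
      exact absurd hab hnxy
    · exact h5.trans h6.symm
  have key := dg_union hdis
  refine hN ⟨F₁ ∪ F₂, union_subset a1 b1, ?_, ?_⟩
  · intro w
    by_cases hwx : w = x
    · right
      rw [key w, hwx, a2, b2]
    · by_cases hwy : w = y
      · right
        rw [key w, hwy, a3, b3]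
      · rcases (hmem w).2 ⟨hwy, hwx⟩ with h3 | h3
        · rw [key w, b6 w (hdj w h3) hwx hwy]
          simpa using a4 w h3
        · rw [key w, a6 w (fun h => hdj w h h3) hwx hwy]
          simpa using b4 w h3
  · intro w hw
    by_cases hwx : w = x
    · rw [key w, hwx, a2, b2]
    · by_cases hwy : w = y
      · rw [key w, hwy, a3, b3]
      · rcases (hmem w).2 ⟨hwy, hwx⟩ with h3 | h3
        · rw [key w, b6 w (hdj w h3) hwx hwy]
          simpa using a5 w h3 hw
        · rw [key w, a6 w (fun h => hdj w h h3) hwx hwy]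
          simpa using b5 w h3 hw

end H75V
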